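import Pool.Agent.H76BD.Final

/-!
# A planar function of bounded deviatoric deformation whose deviatoric gradient lives off the jump set

Question 1 of the problem asks whether `|𝓔_d u| (S_u \ J_u) = 0` for all `n ≥ 2`, all open `Ω ⊆ ℝⁿ` and
all `u ∈ BD_dev(Ω)`. The answer is negative, for `n = 2` and a disc `Ω`. The function `u` is the
convolution of `1 / (π z)` with the natural measure on the four corner Cantor set, so that `𝓔_d u` is
a constant matrix times this measure. It is absolutely continuous with respect to the one
dimensional Hausdorff measure, and it is concentrated on `S_u \ J_u`.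
-/

set_option autoImplicit false
set_option linter.all false

open MeasureTheory Set Filter Topology Metric

namespace Pool.Agent.Results.MP_d02974_an.CantorDisplacement

open Pool.Agent.H76BD

theorem result :
    ∃ (u : E 2 → E 2) (σ : E 2 → Matrix (Fin 2) (Fin 2) ℝ) (lam : Measure (E 2)),
      IntegrableOn u (ball 0 2) ∧ IsDevGradient (ball 0 2) u σ lam ∧
      lam ≪ Measure.hausdorffMeasure 1 ∧
      0 < lam (approxDisc (ball 0 2) u \ jumpSet (ball 0 2) u) ∧
      lam (approxDisc (ball 0 2) u \ jumpSet (ball 0 2) u)ᶜ = 0 :=
  ⟨uu, sig, Pool.Agent.H76BD.lam, uu_int 2, devGradient, lam_ac, lam_pos, good_ae⟩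

end Pool.Agent.Results.MP_d02974_an.CantorDisplacement
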